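import Pool.Agent.H.MP_c4c6a0_pr.B

set_option autoImplicit false

namespace Pool.Agent.Results.MP_c4c6a0_pr.Both

open Pool.Agent.H.MP_c4c6a0_pr MeasureTheory Finset

/-- `L`-periodic and non-degenerate rotor sequence. -/
def Adm {d : ℕ} (a : ℕ → Fin (d + 1)) (L : ℕ) : Prop :=
  0 < L ∧ (∀ x, a (x + L) = a x) ∧ ∀ r, {x | a x = r}.Infinite

/-- Number of occurrences of the symbol `r` in one period. -/
def occ {d : ℕ} (a : ℕ → Fin (d + 1)) (L : ℕ) (r : Fin (d + 1)) : ℕ := #{x ∈ range L | a x = r}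

theorem result :
    (∃ (L : ℕ) (a : ℕ → Fin (3 + 1)), Adm a L ∧ ∀ᵐ k ∂P 3 L, Rec (cfg a k)) ∧
    (∀ (d L : ℕ) (a : ℕ → Fin (d + 1)), Adm a L → 4 * occ a L 0 ≤ L →
      ∀ᵐ k ∂P d L, ¬ Rec (cfg a k)) ∧
    ∀ (d L : ℕ) (a : ℕ → Fin (d + 1)), 3 ≤ d → Adm a L → (∀ r, occ a L r = occ a L 0) →
      ∀ᵐ k ∂P d L, ¬ Rec (cfg a k) := by
  have e : ∀ {d : ℕ} (a : ℕ → Fin (d + 1)) L r, occ a L r = cn a r L := fun a L r =>
    (Nat.count_eq_card_filter_range _ _).symm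
  have H : ∀ (d L : ℕ) (a : ℕ → Fin (d + 1)), Adm a L → 4 * occ a L 0 ≤ L →
      ∀ᵐ k ∂P d L, ¬ Rec (cfg a k) := fun d L a h h4 => by
    have : NeZero L := ⟨h.1.ne'⟩
    obtain ⟨x, hx⟩ := (h.2.2 0).nonempty
    refine trans h.2.1 ?_ (e a L 0 ▸ h4)
    rw [← win h.2.1 0 x]
    exact Nat.pos_of_ne_zero (Nat.count_ne_iff_exists.2 ⟨0, h.1, by simpa [sh] using hx⟩)
  refine ⟨⟨12, ex, ⟨by norm_num, ex_p, fun r => ?_⟩, recur⟩, H, fun d L a hd h hb => H d L a h ?_⟩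
  · obtain ⟨x, hx⟩ : ∃ x : Fin 12, ex x = r := by revert r; decide
    exact Set.infinite_of_injective_forall_mem (f := fun n : ℕ => (x : ℕ) + n * 12)
      (fun m n h => by simpa using h) fun n => (ex_p.nat_mul n x).trans hx
  · have := cn_sum a L
    simp only [← e, hb, sum_const, card_univ, Fintype.card_fin, smul_eq_mul] at this
    nlinarith [Nat.mul_le_mul_right (occ a L 0) hd]

end Pool.Agent.Results.MP_c4c6a0_pr.Both
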